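import Pool.Agent.W243.TD.Stm
import Pool.Agent.W254.HP.LA2

set_option autoImplicit false

namespace Pool.Agent.W176.TD

open Finset Module
open Pool.Agent.W243.TD
open Pool.Agent.W254.HP (pivot_basis)

/-- the annihilated part of a space with pivots -/
theorem finrank_ann {K : IntermediateField ℚ ℂ} {d r : ℕ} (V' : Submodule K (Fin d → K))
    (e : Fin r → Fin d) (hinj : ∀ v ∈ V', (∀ i, v (e i) = 0) → v = 0)
    (Af : Submodule ℂ (Fin r → ℂ)) (h : ∀ v ∈ V', ∀ a ∈ Af, ∑ i, a i * ((v (e i) : K) : ℂ) = 0) :
    finrank K V' + finrank ℂ Af ≤ r := by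
  classical
  let φ : (Fin d → K) →ₗ[K] (Fin r → K) := LinearMap.funLeft K K e
  let U : Submodule K (Fin r → K) := V'.map φ
  have hU : finrank K U = finrank K V' := by
    have hi : Function.Injective (φ.domRestrict V') := by
      rw [← LinearMap.ker_eq_bot, LinearMap.ker_eq_bot']
      intro v hv
      apply Subtype.ext
      apply hinj _ v.2
      intro i
      have := congrFun hv i
      simpa [φ, LinearMap.funLeft] using this
    have h1 : U = LinearMap.range (φ.domRestrict V') := by
      rw [LinearMap.range_domRestrict]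
    rw [h1]
    exact LinearMap.finrank_range_of_inj hi
  obtain ⟨r2, e2, v2, hr2, hv2, hev, -⟩ := pivot_basis U
  let W : Fin r2 → (Fin r → ℂ) := fun k i => ((v2 k i : K) : ℂ)
  have hli : LinearIndependent ℂ W := by
    rw [Fintype.linearIndependent_iff]
    intro g hg k
    have := congrFun hg (e2 k)
    simp only [Finset.sum_apply, Pi.smul_apply, smul_eq_mul, Pi.zero_apply, W] at this
    rw [Finset.sum_eq_single k] at this
    · rw [hev, if_pos rfl] at this
      simpa using this
    · intro k' _ hk'
      rw [hev, if_neg (Ne.symm hk')]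
      simp
    · intro h; exact absurd (mem_univ _) h
  have hfr : finrank ℂ (Submodule.span ℂ (Set.range W)) = r2 := by
    rw [finrank_span_eq_card hli, Fintype.card_fin]
  have horth : ∀ c ∈ Submodule.span ℂ (Set.range W), ∀ a ∈ Af, ∑ i, a i * c i = 0 := by
    intro c hc a ha
    induction hc using Submodule.span_induction with
    | mem x hx =>
      obtain ⟨k, rfl⟩ := hx
      obtain ⟨v, hv, hvk⟩ := hv2 k
      have := h v hv a ha
      rw [← this]
      apply Finset.sum_congr rfl
      intro i _
      simp only [W]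
      rw [← hvk]
      rfl
    | zero => simp
    | add x y _ _ hx hy => simp only [Pi.add_apply, mul_add, Finset.sum_add_distrib, hx, hy, add_zero]
    | smul c x _ hx =>
      have : ∑ i, a i * (c • x) i = c * ∑ i, a i * x i := by
        rw [Finset.mul_sum]; apply Finset.sum_congr rfl; intro i _
        simp only [Pi.smul_apply, smul_eq_mul]; ring
      rw [this, hx, mul_zero]
  have := Pool.Agent.H335R2.Obs.finrank_orth_le Af (Submodule.span ℂ (Set.range W)) horth
  omega

theorem ineq0 : S_obs → S_ineq0 := by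
  intro hobs θ L hθ hL K hK d l r V z hV hrd hz hexp
  classical
  obtain ⟨r', e, v, hr', hvV, hδ, hexpd⟩ := pivot_basis V
  have hrr : r' = r := by omega
  subst hrr
  have hsum : ∀ (j : Fin d) (p : Fin l),
      ∑ i, (L * ((v i j : K) : ℂ)) * ((z p (e i) : K) : ℂ) = L * ((z p j : K) : ℂ) := by
    intro j p
    have h1 := hexpd (z p) (hz p) j
    rw [h1]
    push_cast
    rw [Finset.mul_sum]
    apply Finset.sum_congr rfl
    intro i _
    ring
  set k1 : ℕ := 3 * r' + 4 with hk1
  set m : ℕ := (r' + d) * k1 + 1 with hm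
  obtain ⟨c, hc⟩ : ∃ c, d = r' + c := ⟨d - r', by omega⟩
  have hc1 : 1 ≤ c := by omega
  obtain ⟨Af, Rm, W0, G0, -, hnt, -, hG0, hineq⟩ := hobs θ hθ r' d l Finset.univ 0 (by norm_num)
    (fun i j => L * ((v i j : K) : ℂ)) (fun i p => ((z p (e i) : K) : ℂ)) (Or.inl rfl)
    (fun i _ p => hK _) (fun j p => by rw [hsum]; exact hexp p j)
    (d * m + k1) (r' * m + k1) (c * m) (by rw [hc]; ring) (by
      rw [Finset.card_univ, Fintype.card_fin]
      have h1 : d * (r' * m + k1) = r' * (d * m + k1) + c * k1 := by rw [hc]; ring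
      have h2 : k1 ≤ c * k1 := Nat.le_mul_of_pos_left _ hc1
      rw [h1]
      nlinarith)
  let V' : Submodule K (Fin d → K) :=
    { carrier := {w | w ∈ V ∧ ∀ a ∈ Af, ∑ i, a i * ((w (e i) : K) : ℂ) = 0}
      zero_mem' := ⟨V.zero_mem, fun a _ => by simp⟩
      add_mem' := by
        rintro x y ⟨hx1, hx2⟩ ⟨hy1, hy2⟩
        refine ⟨V.add_mem hx1 hy1, fun a ha => ?_⟩
        have e1 := hx2 a ha
        have e2 := hy2 a ha
        simp only [Pi.add_apply]
        push_cast
        simp only [mul_add, Finset.sum_add_distrib]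
        rw [e1, e2, add_zero]
      smul_mem' := by
        rintro c x ⟨hx1, hx2⟩
        refine ⟨V.smul_mem c hx1, fun a ha => ?_⟩
        have e1 := hx2 a ha
        have : ∑ i, a i * (((c • x) (e i) : K) : ℂ) = (c : ℂ) * ∑ i, a i * ((x (e i) : K) : ℂ) := by
          rw [Finset.mul_sum]; apply Finset.sum_congr rfl; intro i _
          simp only [Pi.smul_apply, smul_eq_mul]; push_cast; ring
        rw [this, e1, mul_zero] }
  have hV'V : V' ≤ V := fun w hw => hw.1
  refine ⟨V', Rm, G0, finrank ℂ Af, hV'V, ?_, ?_, ?_, ?_⟩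
  · apply finrank_ann V' e ?_ Af (fun w hw a ha => hw.2 a ha)
    intro w hw hw0
    funext j
    rw [hexpd w hw.1 j]
    simp [hw0]
  · by_cases hR : Rm = ⊥
    · left
      have hA : Af ≠ ⊥ := fun h => hnt ⟨h, hR⟩
      exact Nat.one_le_iff_ne_zero.mpr (fun h => hA (Submodule.finrank_eq_zero.mp h))
    · right; exact hR
  · intro s hs
    obtain ⟨hs1, hs2⟩ := (hG0 s).mp hs
    refine ⟨⟨V.sum_mem (fun p _ => V.smul_mem _ (hz p)), ?_⟩, ?_⟩
    · intro a ha
      rw [← hs1 a ha]
      apply Finset.sum_congr rfl
      intro i _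
      congr 1
      simp only [Finset.sum_apply, Pi.smul_apply, smul_eq_mul]
      push_cast
      apply Finset.sum_congr rfl
      intro p _
      ring
    · intro q hq
      obtain ⟨n, hn⟩ := hs2 q hq
      refine ⟨n, ?_⟩
      rw [← hn]
      push_cast
      rw [Finset.mul_sum]
      apply Finset.sum_congr rfl
      intro j _
      rw [Finset.mul_sum, Finset.mul_sum]
      apply Finset.sum_congr rfl
      intro p _
      rw [hsum]
      ring
  · have hd1 : finrank ℤ Rm ≤ d := by
      have h := Submodule.finrank_le (AddSubgroup.toIntSubmodule Rm)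
      rw [finrank_fintype_fun_eq_card, Fintype.card_fin] at h
      exact h
    have hf0 : finrank ℂ Af ≤ r' := by
      have h := Submodule.finrank_le Af
      rwa [finrank_fintype_fun_eq_card, Fintype.card_fin] at h
    have hmain : (l - finrank ℤ G0) * (c * m) ≤
        finrank ℂ Af * (d * m + k1) + finrank ℤ Rm * (r' * m + k1) := by
      rcases hineq with h | ⟨h, -⟩
      · rw [zero_mul, zero_add] at h; exact h.le
      · rw [zero_mul, zero_add] at h; exact h.le
    have hdc : d - r' = c := by omega
    rw [hdc]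
    set f0 := finrank ℂ Af
    set d1 := finrank ℤ Rm
    set g := l - finrank ℤ G0
    have h1 : g * c * m < (f0 * d + d1 * r' + 1) * m := by
      have h2 : (f0 + d1) * k1 ≤ (r' + d) * k1 := Nat.mul_le_mul_right _ (by omega)
      have h3 : g * c * m = g * (c * m) := by ring
      have h4 : f0 * (d * m + k1) + d1 * (r' * m + k1) = (f0 * d + d1 * r') * m + (f0 + d1) * k1 := by
        ring
      have h5 : (f0 * d + d1 * r' + 1) * m = (f0 * d + d1 * r') * m + m := by ring
      omega
    have h6 := Nat.lt_of_mul_lt_mul_right h1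
    omega

end Pool.Agent.W176.TD
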